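import Pool.Agent.TH227.GE.Concl

set_option autoImplicit false

/-!
For the irreducible combinatorial data with top line `A B C D` and bottom line `D B A C` and for
every finite smoothness `r ≥ 1` there is a standard interval exchange map without connections whose
semi-conjugacy class among the generalised interval exchange maps of class `C^r` is not a topological
submanifold of codimension `d - 1 = 3`, and not of any larger codimension either.
-/

namespace Pool.Agent.Results.MP_78e4b4_an.NotSubmanifold

open Pool.Agent.TH227.GE

/-- There are irreducible combinatorial data `π` on four letters such that for every `r ≥ 1` there is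
a standard interval exchange map `T₀` with data `π` and without connections such that the set of the
generalised interval exchange maps of class `C^r` semi-conjugate to `T₀` is not a topological
submanifold of codimension `k`, for `k = d - 1 = 3` and for every `k ≥ 3`. -/
theorem result.{u} : ∃ π : CombData 4, π.Irreducible ∧ ∀ r : ℕ, 1 ≤ r →
    ∃ T₀ : GIEM π r, T₀.IsStandard ∧ T₀.NoConnections ∧
      ∀ k : ℕ, 3 ≤ k → ¬ IsTopSubmanifold.{u} k T₀.semiClass := by
  refine ⟨dataKeane, dataKeane_irreducible, fun r hr => ?_⟩
  obtain ⟨x, hp, ht, hx⟩ := exists_std cst0
  exact ⟨T0 (hp 0) ht r, T0_standard (hp 0) ht r, T0_noConn r hp ht hx,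
    fun k hk => not_submanifold.{u} hr hp ht hx hk⟩

end Pool.Agent.Results.MP_78e4b4_an.NotSubmanifold
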